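import Pool.Agent.Helper569.ReulDefs
import Pool.Agent.Helper569.ReulTransfer

open Pool.Agent.Helper569.Reul

namespace Pool.Agent.Results.MP_55cb2c_co.ReuleauxStrict

/-- For every equilateral triangle of side `1` in the Euclidean plane, with vertices `v 0`, `v 1`,
`v 2`, the Reuleaux triangle `T = reuleaux v` satisfies `a(T) < b(T)`, and so does its boundary
curve `∂T = frontier (reuleaux v)`: `a(∂T) < b(∂T)`. -/
theorem result (v : Fin 3 → EuclideanSpace ℝ (Fin 2))
    (hv : ∀ i j, i ≠ j → dist (v i) (v j) = 1) :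
    rendezvous (reuleaux v) < maxAvg (reuleaux v) ∧
      rendezvous (frontier (reuleaux v)) < maxAvg (frontier (reuleaux v)) :=
  ⟨(main v hv).2, (main v hv).1⟩

end Pool.Agent.Results.MP_55cb2c_co.ReuleauxStrict
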